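import Pool.Agent.Lib.Pf720nn.Blk

set_option autoImplicit false

open MeasureTheory Filter Topology

namespace Pool.Agent.Results.MP_f720ae_an.MultiParameter

/-- The ordered composition `T_1^{e_1} ∘ ⋯ ∘ T_d^{e_d}` (the factor `i = 1` leftmost, so the factor
`i = d` acts first). -/
def word {X : Type} {d : ℕ} (T : Fin d → Equiv.Perm X) (e : Fin d → ℤ) : Equiv.Perm X :=
  (List.ofFn fun i => T i ^ e i).prod

/-- The indices divide into consecutive blocks `{i | β i = b}` such that the `T_i` with `P_i ≠ 0` in
the same block commute with each other, and the `P_i` in different blocks have no variable in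
common. For instance (one block) all `T_i` commute and the `P_i` are arbitrary; or (`d` blocks) the
`T_i` are arbitrary and the `P_i` have separate variables, as in `T_1^{m_1} ⋯ T_d^{m_d}`. -/
def Separated {X : Type} {d k : ℕ} (T : Fin d → Equiv.Perm X)
    (P : Fin d → MvPolynomial (Fin k) ℤ) : Prop :=
  ∃ β : Fin d → ℕ, Monotone β ∧ ∀ i i', P i ≠ 0 → P i' ≠ 0 →
    (β i = β i' → T i * T i' = T i' * T i) ∧ (β i ≠ β i' → Disjoint (P i).vars (P i').vars)

/-- The multi-parameter polynomial pointwise ergodic theorem. Let `T_1, …, T_d` be invertible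
measure-preserving maps of a probability space and let `P_1, …, P_d ∈ ℤ[m_1, …, m_k]` be ARBITRARY
polynomials, where non-commuting maps have to sit in different blocks with separate variables (see
`Separated`; there is no condition on the polynomials if the `T_i` commute). Let `f ∈ L²(μ)` (for
instance `f ∈ L^∞(μ)`). Then the averages of `f (T_1^{P_1(m)} ⋯ T_d^{P_d(m)} x)` over
`m ∈ [M_1] × ⋯ × [M_k]` converge for a.e. `x` as `min_i M_i → ∞` (unrestricted limit). -/
theorem result (d k : ℕ) (X : Type) [MeasurableSpace X] (μ : Measure X) [IsProbabilityMeasure μ]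
    (T : Fin d → Equiv.Perm X)
    (hT : ∀ i, Measurable (T i) ∧ Measurable (T i).symm ∧ MeasurePreserving (T i) μ μ)
    (P : Fin d → MvPolynomial (Fin k) ℤ) (hP : Separated T P)
    (f : X → ℂ) (hf : MemLp f 2 μ) :
    ∀ᵐ x ∂μ, ∃ L : ℂ, Tendsto (fun M : Fin k → ℕ => (∏ l, (M l : ℂ))⁻¹ *
      ∑ m ∈ Fintype.piFinset (fun l => Finset.Icc 1 (M l)),
        f (word T (fun i => MvPolynomial.eval (fun l => (m l : ℤ)) (P i)) x)) atTop (𝓝 L) :=
  Pool.Agent.Lib.Pf720nn.conv_sep T hT P hP hf

end Pool.Agent.Results.MP_f720ae_an.MultiParameter
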