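import Pool.Agent.Lib.Npc.Final

set_option autoImplicit false

open Finset MeasureTheory Filter Topology
open scoped ENNReal

namespace Pool.Agent.Results.MP_f720ae_an.NilpotentPointwise

/-- The ordered composition `T_1^{e_1} ∘ ⋯ ∘ T_d^{e_d}` (the factor `i = 1` leftmost, so the factor
`i = d` acts first). -/
def word {X : Type} {d : ℕ} (T : Fin d → Equiv.Perm X) (e : Fin d → ℤ) : Equiv.Perm X :=
  (List.ofFn fun i => T i ^ e i).prod

/-- `f` belongs to the compact part: it is an `L²(μ)` limit of functions in finite dimensional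
subspaces of `L²(μ)` invariant under all the `T_i`. For every `ε > 0` there are an orthonormal family
`φ_1, …, φ_N`, whose span is invariant under the `T_i` (`φ_a ∘ T_i` is a linear combination of the
`φ_b`), and a linear combination of the `φ_a` within `ε` of `f` in `L²(μ)`. -/
def CompactPart {X : Type} [MeasurableSpace X] (μ : Measure X) {d : ℕ} (T : Fin d → Equiv.Perm X)
    (f : X → ℂ) : Prop :=
  ∀ ε : ℝ, 0 < ε → ∃ (N : ℕ) (φ : Fin N → X → ℂ) (A : Fin d → Matrix (Fin N) (Fin N) ℂ)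
    (c : Fin N → ℂ), (∀ a, MemLp (φ a) 2 μ) ∧
    (∀ a b, ∫ x, φ a x * star (φ b x) ∂μ = if a = b then 1 else 0) ∧
    (∀ i, ∀ᵐ x ∂μ, ∀ a, φ a (T i x) = ∑ b, A i a b * φ b x) ∧
    eLpNorm (fun x => f x - ∑ a, c a * φ a x) 2 μ ≤ ENNReal.ofReal ε

/-- The polynomial pointwise ergodic theorem for nilpotent groups of measure-preserving maps, of any
step. Let invertible measure-preserving maps `T_1, …, T_d` of a probability space generate a
nilpotent group, let `P_{ij} ∈ ℤ[m_1, …, m_k]` be arbitrary polynomials (`1 ≤ i ≤ d`, `0 ≤ j ≤ n`), let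
`f_0 ∈ L²(μ)` be arbitrary and let `f_1, …, f_n ∈ L^∞(μ)` belong to the compact part (there is no such
function if `n = 0`). Then the averages over the cubes `m ∈ [M]^k` of
`∏_{j ≤ n} f_j (T_1^{P_{1j}(m)} ⋯ T_d^{P_{dj}(m)} x)` converge for almost every `x` as `M → ∞`. -/
theorem result (d k n : ℕ) (X : Type) [MeasurableSpace X] (μ : Measure X) [IsProbabilityMeasure μ]
    (T : Fin d → Equiv.Perm X)
    (hT : ∀ i, Measurable (T i) ∧ Measurable (T i).symm ∧ MeasurePreserving (T i) μ μ)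
    (hG : Group.IsNilpotent (Subgroup.closure (Set.range T)))
    (P : Fin (n + 1) → Fin d → MvPolynomial (Fin k) ℤ) (f : Fin (n + 1) → X → ℂ)
    (hf0 : MemLp (f 0) 2 μ) (hf : ∀ j, j ≠ 0 → MemLp (f j) ∞ μ ∧ CompactPart μ T (f j)) :
    ∀ᵐ x ∂μ, ∃ L : ℂ, Tendsto (fun M : ℕ => ((M : ℂ) ^ k)⁻¹ *
      ∑ m ∈ Fintype.piFinset (fun _ : Fin k => Finset.Icc 1 M),
        ∏ j, f j (word T (fun i => MvPolynomial.eval (fun l => (m l : ℤ)) (P j i)) x))
      atTop (𝓝 L) := by
  filter_upwards [Pool.Agent.Lib.Npc.conv_compact T hT hG P f hf0 hf] with x hx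
  obtain ⟨a, ha⟩ := hx
  refine ⟨a, ha.congr fun M => ?_⟩
  rw [Pool.Agent.Lib.Pf720ae.sum_Icc_eq (fun _ => M)]
  rfl

end Pool.Agent.Results.MP_f720ae_an.NilpotentPointwise
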