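import Pool.Agent.Lib.EQG.Lo.Two
import Pool.Agent.Lib.EQG.TAsm

set_option autoImplicit false

open MeasureTheory Filter Topology

namespace Pool.Agent.Results.MP_f720ae_an.OneTransformation

/-- `P_{i₀}` is a base of the family `P_1, …, P_n`: it is not constant, no difference
`P_i - P_{i₀}` (`i ≠ i₀`) is constant, and the degrees of `P_{i₀}` and of the `n - 1` differences
are pairwise distinct. For instance `m, P` with `deg P ≥ 2`; `m², m² + m`; `m², m² + m, m³, m⁵`;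
`m⁴ + m, m⁴ + m², m⁴ + 5 m³`; or any polynomials of pairwise distinct positive degrees (base: the
one of smallest degree). -/
def Base {n : ℕ} (P : Fin n → Polynomial ℤ) (i₀ : Fin n) : Prop :=
  1 ≤ (P i₀).natDegree ∧
  (∀ i, i ≠ i₀ → 1 ≤ (P i - P i₀).natDegree ∧ (P i - P i₀).natDegree ≠ (P i₀).natDegree) ∧
  ∀ i j, i ≠ i₀ → j ≠ i₀ → i ≠ j → (P i - P i₀).natDegree ≠ (P j - P i₀).natDegree

/-- Pointwise convergence for several functions and one transformation. Let `T` be an invertible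
measure-preserving map of a probability space.

(1) Two functions: for all `P₁, P₂ ∈ ℤ[m]`, except when `P₁`, `P₂` and `P₁ - P₂` all have the same
degree `≥ 1`, and all `f₁, f₂ ∈ L^∞`, the averages of `f₁ (T^{P₁(m)} x) f₂ (T^{P₂(m)} x)` over
`1 ≤ m ≤ N` converge for a.e. `x`.

(2) Any number of functions: if `P_1, …, P_n ∈ ℤ[m]` have a base in the sense of `Base` and
`f_1, …, f_n ∈ L^∞`, then the averages of `f_1 (T^{P_1(m)} x) ⋯ f_n (T^{P_n(m)} x)` over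
`1 ≤ m ≤ N` converge for a.e. `x`. If all powers of `T` are ergodic, the limit is the product of
the integrals. For every `T` the limit is `0` if one of the `f_i` is orthogonal to all
square-integrable functions which are invariant under some power `T^q`, `q ≥ 1`. -/
theorem result (X : Type) [MeasurableSpace X] (μ : Measure X) [IsProbabilityMeasure μ]
    (T : Equiv.Perm X) (hT : Measurable T ∧ Measurable T.symm ∧ MeasurePreserving T μ μ) :
    (∀ P₁ P₂ : Polynomial ℤ,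
      ¬ (1 ≤ P₁.natDegree ∧ P₁.natDegree = P₂.natDegree ∧ P₁.natDegree = (P₁ - P₂).natDegree) →
      ∀ f₁ f₂ : X → ℂ, MemLp f₁ ⊤ μ → MemLp f₂ ⊤ μ →
      ∀ᵐ x ∂μ, ∃ L : ℂ, Tendsto (fun N : ℕ => (N : ℂ)⁻¹ *
        ∑ m ∈ Finset.Icc 1 N, f₁ ((T ^ (P₁.eval (m : ℤ))) x) * f₂ ((T ^ (P₂.eval (m : ℤ))) x))
        atTop (𝓝 L)) ∧
    ∀ (n : ℕ) (P : Fin n → Polynomial ℤ) (i₀ : Fin n), Base P i₀ →
      ∀ f : Fin n → X → ℂ, (∀ i, MemLp (f i) ⊤ μ) →
      (∀ᵐ x ∂μ, ∃ L : ℂ, Tendsto (fun N : ℕ => (N : ℂ)⁻¹ *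
        ∑ m ∈ Finset.Icc 1 N, ∏ i, f i ((T ^ ((P i).eval (m : ℤ))) x)) atTop (𝓝 L)) ∧
      ((∀ q : ℕ, 1 ≤ q → Ergodic (T ^ q : Equiv.Perm X) μ) →
        ∀ᵐ x ∂μ, Tendsto (fun N : ℕ => (N : ℂ)⁻¹ *
          ∑ m ∈ Finset.Icc 1 N, ∏ i, f i ((T ^ ((P i).eval (m : ℤ))) x)) atTop
          (𝓝 (∏ i, ∫ x, f i x ∂μ))) ∧
      (∀ i, (∀ q : ℕ, 1 ≤ q → ∀ g : X → ℂ, MemLp g 2 μ → (∀ᵐ x ∂μ, g ((T ^ q) x) = g x) →
          ∫ x, f i x * g x ∂μ = 0) →
        ∀ᵐ x ∂μ, Tendsto (fun N : ℕ => (N : ℂ)⁻¹ *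
          ∑ m ∈ Finset.Icc 1 N, ∏ i, f i ((T ^ ((P i).eval (m : ℤ))) x)) atTop (𝓝 0)) := by
  refine ⟨fun P₁ P₂ hP f₁ f₂ h₁ h₂ =>
    Pool.Agent.EQD.Lo.G.two (fun h => Pool.Agent.EQD.G.midG h) T hT P₁ P₂ hP f₁ f₂ h₁ h₂, ?_⟩
  intro n P i₀ hP f hf
  obtain ⟨h0, h1, h2⟩ := hP
  refine Pool.Agent.EQD.Lo.G.final (fun h => Pool.Agent.EQD.G.midG h) n T hT P i₀ (fun j => ?_)
    (fun a b hab => ?_) f hf
  · unfold Pool.Agent.EQD.G.dst
    split_ifs with hj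
    · exact h0
    · exact (h1 j hj).1
  · unfold Pool.Agent.EQD.G.dst at hab
    by_contra hne
    split_ifs at hab with ha hb hb
    · exact hne (ha.trans hb.symm)
    · exact (h1 b hb).2 hab.symm
    · exact (h1 a ha).2 hab
    · exact h2 a b ha hb hne hab

end Pool.Agent.Results.MP_f720ae_an.OneTransformation
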