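import Pool.Agent.Lib.Pf720rt.WW

set_option autoImplicit false

open MeasureTheory Filter Topology

namespace Pool.Agent.Results.MP_f720ae_an.ReturnTimes

/-- Polynomial return times theorem, and a case of the pointwise convergence problem for two maps
that need not commute. Let `T₁` be an invertible measure-preserving map of a probability space
`X`, let `P ∈ ℤ[m]` have degree at least two and let `f₁ ∈ L^∞(X)`.
(1) For almost every `x` the sequence `f₁ (T₁^{P(m)} x)` is a universally good weight for the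
pointwise ergodic theorem: for EVERY probability space `Y`, every measure-preserving (not
necessarily invertible) map `S` of `Y` and every integrable `g` on `Y` the averages
`N⁻¹ ∑_{m ≤ N} f₁ (T₁^{P(m)} x) g (S^m y)` converge for almost every `y`. The null set of `x` does
not depend on `Y`, `S`, `g`. In particular (Wiener-Wintner) for almost every `x` the averages of
`f₁ (T₁^{P(m)} x) e^{i m t}` converge for ALL real `t`.
(2) Let `T₂` be an invertible measure-preserving map of `X` such that all `f₁ ∘ T₁^k`, `k ∈ ℤ`,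
are `T₂`-invariant. Then for all `Q ∈ ℤ[m]`, `a, b ∈ ℤ` and `f₂ ∈ L¹(X)` the averages
`N⁻¹ ∑_{m ≤ N} f₁ (T₁^{P(m)} T₂^{Q(m)} x) f₂ (T₂^{a m + b} x)` converge almost everywhere. -/
theorem result (X : Type) [MeasurableSpace X] (μ : Measure X) [IsProbabilityMeasure μ]
    (T₁ : Equiv.Perm X) (hT₁ : Measurable T₁ ∧ Measurable T₁.symm ∧ MeasurePreserving T₁ μ μ)
    (P : Polynomial ℤ) (hP : 2 ≤ P.natDegree) (f₁ : X → ℂ) (hf₁ : MemLp f₁ ⊤ μ) :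
    (∀ᵐ x ∂μ, ∀ (Y : Type) [MeasurableSpace Y] (ν : Measure Y) [IsProbabilityMeasure ν]
      (S : Y → Y), MeasurePreserving S ν ν → ∀ g : Y → ℂ, Integrable g ν →
      ∀ᵐ y ∂ν, ∃ L : ℂ, Tendsto (fun N : ℕ => (N : ℂ)⁻¹ *
        ∑ m ∈ Finset.Icc 1 N, f₁ ((T₁ ^ (P.eval (m : ℤ))) x) * g (S^[m] y)) atTop (𝓝 L)) ∧
    (∀ᵐ x ∂μ, ∀ t : ℝ, ∃ L : ℂ, Tendsto (fun N : ℕ => (N : ℂ)⁻¹ *
        ∑ m ∈ Finset.Icc 1 N, f₁ ((T₁ ^ (P.eval (m : ℤ))) x) * Complex.exp (Complex.I * m * t))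
        atTop (𝓝 L)) ∧
    (∀ T₂ : Equiv.Perm X, Measurable T₂ ∧ Measurable T₂.symm ∧ MeasurePreserving T₂ μ μ →
      (∀ k : ℤ, ∀ᵐ x ∂μ, f₁ ((T₁ ^ k) (T₂ x)) = f₁ ((T₁ ^ k) x)) →
      ∀ (Q : Polynomial ℤ) (a b : ℤ) (f₂ : X → ℂ), Integrable f₂ μ →
      ∀ᵐ x ∂μ, ∃ L : ℂ, Tendsto (fun N : ℕ => (N : ℂ)⁻¹ *
        ∑ m ∈ Finset.Icc 1 N, f₁ ((T₁ ^ (P.eval (m : ℤ))) ((T₂ ^ (Q.eval (m : ℤ))) x)) *
          f₂ ((T₂ ^ (a * m + b)) x)) atTop (𝓝 L)) :=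
  ⟨Pool.Agent.Lib.Pf720rt.main μ T₁ hT₁ P hP f₁ hf₁,
    (Pool.Agent.Lib.Pf720rt.main μ T₁ hT₁ P hP f₁ hf₁).mono fun x hx t =>
      Pool.Agent.Lib.Pf720rt.ww_of (fun m => f₁ ((T₁ ^ (P.eval (m : ℤ))) x)) hx t,
    fun T₂ hT₂ hinv Q a b f₂ hf₂ =>
      Pool.Agent.Lib.Pf720rt.two μ T₁ T₂ hT₁ hT₂ P Q hP a b f₁ hf₁ hinv f₂ hf₂⟩

end Pool.Agent.Results.MP_f720ae_an.ReturnTimes
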